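import Mathlib

/-!
A bisequential compactum of cardinality at most the continuum that is not a continuous image of a
first countable compactum.

The compactum is the one-point compactification of a Mrowka-type space: an almost disjoint family
of sets `D (z, w)` of natural numbers, where `h n` tends to `z` and `z n` tends to `w` along
`D (z, w)`.
-/

open Set Filter Topology

namespace Pool.Agent.Results.MP_34c5b1_gt.NotImage

/-- `X` is bisequential (E. Michael): whenever `η` is a filter on `X` and `x` lies in the closure of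
every member of `η`, there is a sequence `A 0, A 1, ...` of subsets of `X` that converges to `x`
(every neighbourhood of `x` contains `A n` for all large `n`) and is synchronized with `η` (every
`A n` meets every member of `η`). -/
def Bisequential (X : Type*) [TopologicalSpace X] : Prop :=
  ∀ (η : Filter X) (x : X), (∀ P ∈ η, x ∈ closure P) →
    ∃ A : ℕ → Set X, (∀ O ∈ 𝓝 x, ∃ m, ∀ n ≥ m, A n ⊆ O) ∧ ∀ n, ∀ P ∈ η, (A n ∩ P).Nonempty

/-- The Cantor space. -/
abbrev M1 : Type := ℕ → Bool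

/-- The countable power of the Cantor space. -/
abbrev M0 : Type := ℕ → M1

/-- agreement up to `k` -/
def eq1 (k : ℕ) (w w' : M1) : Prop := ∀ j < k, w j = w' j

/-- agreement up to `k` -/
def eq0 (k : ℕ) (z z' : M0) : Prop := ∀ i < k, eq1 k (z i) (z' i)

theorem eq1.mono {k k' : ℕ} {w w' : M1} (h : eq1 k' w w') (hk : k ≤ k') : eq1 k w w' :=
  fun j hj => h j (hj.trans_le hk)

theorem eq0.mono {k k' : ℕ} {z z' : M0} (h : eq0 k' z z') (hk : k ≤ k') : eq0 k z z' :=
  fun i hi => (h i (hi.trans_le hk)).mono hk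

theorem eq1.symm {k : ℕ} {w w' : M1} (h : eq1 k w w') : eq1 k w' w := fun j hj => (h j hj).symm

theorem eq0.symm {k : ℕ} {z z' : M0} (h : eq0 k z z') : eq0 k z' z := fun i hi => (h i hi).symm

theorem eq1.trans {k : ℕ} {a b c : M1} (h : eq1 k a b) (h' : eq1 k b c) : eq1 k a c :=
  fun j hj => (h j hj).trans (h' j hj)

theorem eq0.trans {k : ℕ} {a b c : M0} (h : eq0 k a b) (h' : eq0 k b c) : eq0 k a c :=
  fun j hj => (h j hj).trans (h' j hj)

theorem exists_not_eq1 {w w' : M1} (h : w ≠ w') : ∃ k, ¬ eq1 k w w' := by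
  by_contra hcon
  push Not at hcon
  exact h (funext fun j => hcon (j + 1) j (Nat.lt_succ_self j))

theorem exists_not_eq0 {z z' : M0} (h : z ≠ z') : ∃ k, ¬ eq0 k z z' := by
  by_contra hcon
  push Not at hcon
  apply h
  funext i j
  exact hcon (max i j + 1) i (by omega) j (by omega)

theorem isOpen_eq1 (k : ℕ) (w : M1) : IsOpen {w' : M1 | eq1 k w' w} := by
  have : {w' : M1 | eq1 k w' w} = ⋂ j ∈ {j | j < k}, {w' : M1 | w' j = w j} := by
    ext w'; simp [eq1]
  rw [this]
  refine (Set.finite_lt_nat k).isOpen_biInter fun j _ => ?_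
  have hc : Continuous fun w' : M1 => w' j := continuous_apply j
  exact (isOpen_discrete ({w j} : Set Bool)).preimage hc

theorem isOpen_eq0 (k : ℕ) (z : M0) : IsOpen {z' : M0 | eq0 k z' z} := by
  have : {z' : M0 | eq0 k z' z} = ⋂ i ∈ {j | j < k}, (fun z' : M0 => z' i) ⁻¹' {w | eq1 k w (z i)} := by
    ext w'; simp [eq0]
  rw [this]
  exact (Set.finite_lt_nat k).isOpen_biInter fun j _ =>
    (isOpen_eq1 k (z j)).preimage (continuous_apply j)

theorem exists_h : ∃ h : ℕ → M0, ∀ z k m, ∃ n ≥ m, eq0 k (h n) z := by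
  obtain ⟨u, hu⟩ := TopologicalSpace.exists_dense_seq M0
  refine ⟨fun n => u n.unpair.1, fun z k m => ?_⟩
  obtain ⟨i, hi⟩ := hu.exists_mem_open (isOpen_eq0 k z) ⟨z, fun _ _ _ _ => rfl⟩
  refine ⟨Nat.pair i m, Nat.right_le_pair i m, ?_⟩
  simpa using hi

/-- a sequence in `M0` each of whose tails is dense -/
noncomputable def h : ℕ → M0 := exists_h.choose

theorem h_spec (z : M0) (k m : ℕ) : ∃ n ≥ m, eq0 k (h n) z := exists_h.choose_spec z k m

/-- decoding a sequence of sets of natural numbers -/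
def φ (w : M1) (m : ℕ) : Set ℕ := {n | w (Nat.pair m n) = true}

theorem φ_surj (V : ℕ → Set ℕ) : ∃ w, φ w = V := by
  classical
  refine ⟨fun i => decide (i.unpair.2 ∈ V i.unpair.1), ?_⟩
  funext m
  ext n
  simp [φ]

/-- the sequence of sets coded by `y.2` accumulates to the point `y` -/
def Acc (y : M0 × M1) : Prop :=
  Antitone (φ y.2) ∧ ∀ k, ∃ n ≥ k, eq0 k (h n) y.1 ∧ eq1 k (y.1 n) y.2 ∧ n ∈ φ y.2 k

/-- the almost disjoint family -/
def D (y : M0 × M1) : Set ℕ := {n | ∃ hy : Acc y, ∃ k, n = (hy.2 k).choose}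

theorem D_conv (y : M0 × M1) (j : ℕ) :
    ∃ N, ∀ n ∈ D y, N ≤ n → eq0 j (h n) y.1 ∧ eq1 j (y.1 n) y.2 := by
  by_cases hy : Acc y
  · have hfin : ((fun k => (hy.2 k).choose) '' {k | k < j}).Finite := (Set.finite_lt_nat j).image _
    obtain ⟨N, hN⟩ := hfin.bddAbove
    refine ⟨N + 1, ?_⟩
    rintro n ⟨_, k, rfl⟩ hn
    have hk : j ≤ k := by
      by_contra hk
      have := hN ⟨k, not_le.1 hk, rfl⟩
      exact absurd (hn.trans this) (by omega)
    have h2 := (hy.2 k).choose_spec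
    exact ⟨h2.2.1.mono hk, h2.2.2.1.mono hk⟩
  · refine ⟨0, ?_⟩
    rintro n ⟨hy', -⟩
    exact (hy hy').elim

theorem D_inf {y : M0 × M1} (hy : Acc y) (m k : ℕ) : ∃ n ≥ k, n ∈ D y ∧ n ∈ φ y.2 m := by
  have h2 := (hy.2 (max m k)).choose_spec
  exact ⟨_, (le_max_right m k).trans h2.1, ⟨hy, _, rfl⟩, hy.1 (le_max_left m k) h2.2.2.2⟩

theorem D_disj {y y' : M0 × M1} (hyy : y ≠ y') : ∃ N, ∀ n ≥ N, n ∈ D y → n ∉ D y' := by
  by_cases h0 : y.1 = y'.1
  · have h1 : y.2 ≠ y'.2 := fun h1 => hyy (Prod.ext h0 h1)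
    obtain ⟨k, hk⟩ := exists_not_eq1 h1
    obtain ⟨N, hN⟩ := D_conv y k
    obtain ⟨N', hN'⟩ := D_conv y' k
    refine ⟨max N N', fun n hn hd hd' => hk ?_⟩
    have h2 := (hN n hd ((le_max_left _ _).trans hn)).2
    have h3 := (hN' n hd' ((le_max_right _ _).trans hn)).2
    rw [← h0] at h3
    exact h2.symm.trans h3
  · obtain ⟨k, hk⟩ := exists_not_eq0 h0
    obtain ⟨N, hN⟩ := D_conv y k
    obtain ⟨N', hN'⟩ := D_conv y' k
    refine ⟨max N N', fun n hn hd hd' => hk ?_⟩
    exact (hN n hd ((le_max_left _ _).trans hn)).1.symm.trans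
      (hN' n hd' ((le_max_right _ _).trans hn)).1

/-- The underlying set of the compactum. -/
inductive Pt : Type
  | inf : Pt
  | nat : ℕ → Pt
  | idx : M0 × M1 → Pt

/-- the clopen block of `y` -/
def blk (y : M0 × M1) : Set Pt := {x | x = Pt.idx y ∨ ∃ n ∈ D y, x = Pt.nat n}

open Classical in
/-- the embedding into a Cantor cube -/
noncomputable def g (x : Pt) : ℕ ⊕ (M0 × M1) → Bool
  | Sum.inl n => decide (x = Pt.nat n)
  | Sum.inr y => decide (x ∈ blk y)

noncomputable instance : TopologicalSpace Pt := TopologicalSpace.induced g inferInstance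

theorem le_nhds_iff (F : Filter Pt) (x : Pt) : F ≤ 𝓝 x ↔
    (∀ n, ∀ᶠ x' in F, (x' = Pt.nat n ↔ x = Pt.nat n)) ∧
      ∀ y, ∀ᶠ x' in F, (x' ∈ blk y ↔ x ∈ blk y) := by
  rw [nhds_induced, ← map_le_iff_le_comap]
  change Tendsto g F (𝓝 (g x)) ↔ _
  rw [tendsto_pi_nhds, Sum.forall]
  refine and_congr (forall_congr' fun n => ?_) (forall_congr' fun y => ?_)
  · rw [nhds_discrete, tendsto_pure]
    simp [g]
  · rw [nhds_discrete, tendsto_pure]
    simp [g]

theorem continuous_g : Continuous g := continuous_induced_dom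

theorem continuous_gc (c : ℕ ⊕ (M0 × M1)) : Continuous fun x => g x c :=
  (continuous_apply c).comp continuous_g

theorem isOpen_nat (n : ℕ) : IsOpen {Pt.nat n} := by
  have h1 : IsOpen ((fun x => g x (Sum.inl n)) ⁻¹' {true}) :=
    (isOpen_discrete ({true} : Set Bool)).preimage (continuous_gc _)
  convert h1 using 1
  ext x; simp [g]

theorem isClopen_blk (y : M0 × M1) : IsClopen (blk y) := by
  have h1 : IsClopen ((fun x => g x (Sum.inr y)) ⁻¹' {true}) :=
    (isClopen_discrete ({true} : Set Bool)).preimage (continuous_gc _)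
  convert h1 using 1
  ext x; simp [g]

theorem g_injective : Function.Injective g := by
  have key : ∀ x x' : Pt, g x = g x' → x ≠ Pt.inf → x = x' := by
    intro x x' hg hx
    have h1 : ∀ n, (x = Pt.nat n ↔ x' = Pt.nat n) := fun n => by
      have := congrFun hg (Sum.inl n)
      simpa [g] using this
    have h2 : ∀ y, (x ∈ blk y ↔ x' ∈ blk y) := fun y => by
      have := congrFun hg (Sum.inr y)
      simpa [g] using this
    rcases x with _ | n | y
    · exact (hx rfl).elim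
    · exact ((h1 n).1 rfl).symm
    · rcases (h2 y).1 (Or.inl rfl) with h3 | ⟨n, -, h3⟩
      · exact h3.symm
      · exact (h1 n).2 h3 |>.trans h3.symm
  intro x x' hg
  by_cases hx : x = Pt.inf
  · by_cases hx' : x' = Pt.inf
    · rw [hx, hx']
    · exact (key x' x hg.symm hx').symm
  · exact key x x' hg hx

instance : T2Space Pt := T2Space.of_injective_continuous g_injective continuous_g

instance : CompactSpace Pt := by
  refine ⟨isCompact_iff_ultrafilter_le_nhds.2 fun 𝒰 _ => ?_⟩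
  by_cases h1 : ∃ n, {Pt.nat n} ∈ 𝒰
  · obtain ⟨n, hn⟩ := h1
    refine ⟨Pt.nat n, trivial, ?_⟩
    obtain ⟨x, hx, h2⟩ := Ultrafilter.eq_pure_of_finite_mem (finite_singleton _) hn
    rw [mem_singleton_iff] at hx
    rw [h2, hx]
    exact pure_le_nhds _
  push Not at h1
  have h1' : ∀ n, ∀ᶠ x' in (𝒰 : Filter Pt), x' ≠ Pt.nat n := fun n =>
    Ultrafilter.compl_mem_iff_notMem.2 (h1 n)
  by_cases h2 : ∃ y, blk y ∈ 𝒰
  · obtain ⟨y, hy⟩ := h2
    refine ⟨Pt.idx y, trivial, ?_⟩
    rw [le_nhds_iff]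
    refine ⟨fun n => (h1' n).mono fun x' hx' => by simp [hx'], fun y' => ?_⟩
    by_cases hyy : y = y'
    · subst hyy
      filter_upwards [hy] with x' hx'
      exact ⟨fun _ => Or.inl rfl, fun _ => hx'⟩
    · obtain ⟨N, hN⟩ := D_disj hyy
      have h3 : ∀ᶠ x' in (𝒰 : Filter Pt), ∀ n ∈ {n | n < N}, x' ≠ Pt.nat n :=
        (Filter.eventually_all_finite (Set.finite_lt_nat N)).2 fun n _ => h1' n
      filter_upwards [hy, h3] with x' hx' hx3
      constructor
      · rintro (h4 | ⟨n, hn, h4⟩)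
        · rcases hx' with h5 | ⟨m, hm, h5⟩
          · rw [h4] at h5
            injection h5 with h6
            exact (hyy h6.symm).elim
          · rw [h4] at h5; cases h5
        · rcases hx' with h5 | ⟨m, hm, h5⟩
          · rw [h4] at h5; cases h5
          · rw [h4] at h5
            injection h5 with h6
            subst h6
            exfalso
            by_cases hnN : n < N
            · exact hx3 n hnN h4
            · exact hN n (not_lt.1 hnN) hm hn
      · rintro (h4 | ⟨n, hn, h4⟩)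
        · injection h4 with h6
          exact (hyy h6).elim
        · cases h4
  · push Not at h2
    refine ⟨Pt.inf, trivial, ?_⟩
    rw [le_nhds_iff]
    refine ⟨fun n => (h1' n).mono fun x' hx' => by simp [hx'], fun y => ?_⟩
    have h3 : ∀ᶠ x' in (𝒰 : Filter Pt), x' ∉ blk y := Ultrafilter.compl_mem_iff_notMem.2 (h2 y)
    refine h3.mono fun x' hx' => ?_
    constructor
    · intro h; exact (hx' h).elim
    · rintro (h4 | ⟨n, hn, h4⟩) <;> cases h4

theorem converges {A : ℕ → Set Pt} (hA : Antitone A) {x : Pt}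
    (h1 : ∀ n, ∃ k, ∀ x' ∈ A k, (x' = Pt.nat n ↔ x = Pt.nat n))
    (h2 : ∀ y, ∃ k, ∀ x' ∈ A k, (x' ∈ blk y ↔ x ∈ blk y)) :
    ∀ O ∈ 𝓝 x, ∃ m, ∀ n ≥ m, A n ⊆ O := by
  intro O hO
  have hle : (⨅ k, 𝓟 (A k)) ≤ 𝓝 x := by
    rw [le_nhds_iff]
    refine ⟨fun n => ?_, fun y => ?_⟩
    · obtain ⟨k, hk⟩ := h1 n
      exact Filter.mem_of_superset (Filter.mem_iInf_of_mem k (mem_principal_self _)) hk
    · obtain ⟨k, hk⟩ := h2 y
      exact Filter.mem_of_superset (Filter.mem_iInf_of_mem k (mem_principal_self _)) hk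
  have hO' := hle hO
  rw [mem_iInf_of_directed] at hO'
  · obtain ⟨m, hm⟩ := hO'
    exact ⟨m, fun n hn => (hA hn).trans hm⟩
  · intro a b
    exact ⟨max a b, principal_mono.2 (hA (le_max_left _ _)),
      principal_mono.2 (hA (le_max_right _ _))⟩

/-- first label -/
noncomputable def lab0 : Pt → M0
  | Pt.inf => fun _ _ => false
  | Pt.nat n => h n
  | Pt.idx y => y.1

/-- second label -/
def lab1 (z : M0) : Pt → M1
  | Pt.inf => fun _ => false
  | Pt.nat n => z n
  | Pt.idx y => y.2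

theorem bisequential : Bisequential Pt := by
  intro η x hη
  have hcl : ClusterPt x η := by
    rw [clusterPt_iff_forall_mem_closure]; exact hη
  obtain ⟨𝒰, h𝒰, hx⟩ := clusterPt_iff_ultrafilter.1 hcl
  suffices hs : ∃ A : ℕ → Set Pt, (∀ k, A k ∈ 𝒰) ∧ ∀ O ∈ 𝓝 x, ∃ m, ∀ n ≥ m, A n ⊆ O by
    obtain ⟨A, hA, hA'⟩ := hs
    exact ⟨A, hA', fun n P hP => 𝒰.nonempty_of_mem (𝒰.inter_mem (hA n) (h𝒰 hP))⟩
  have hx' := (le_nhds_iff _ _).1 hx
  rcases x with _ | n | y
  · have hz : ∃ z, ∀ k, ∀ᶠ x in (𝒰 : Filter Pt), eq0 k (lab0 x) z := by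
      obtain ⟨z, -, hz⟩ := isCompact_univ.ultrafilter_le_nhds (𝒰.map lab0) (by simp)
      exact ⟨z, fun k => hz ((isOpen_eq0 k z).mem_nhds fun _ _ _ _ => rfl)⟩
    obtain ⟨z, hz⟩ := hz
    have hw : ∃ w, ∀ k, ∀ᶠ x in (𝒰 : Filter Pt), eq1 k (lab1 z x) w := by
      obtain ⟨w, -, hw⟩ := isCompact_univ.ultrafilter_le_nhds (𝒰.map (lab1 z)) (by simp)
      exact ⟨w, fun k => hw ((isOpen_eq1 k w).mem_nhds fun _ _ => rfl)⟩
    obtain ⟨w, hw⟩ := hw
    have hninf : ∀ y, Pt.inf ∉ blk y := by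
      rintro y (h4 | ⟨n, hn, h4⟩) <;> cases h4
    refine ⟨fun k => {x | eq0 k (lab0 x) z ∧ eq1 k (lab1 z x) w ∧ x ∉ blk (z, w) ∧
      ∀ n ∈ {n | n < k}, x ≠ Pt.nat n}, fun k => ?_, converges ?_ ?_ ?_⟩
    · have h1 : ∀ᶠ x in (𝒰 : Filter Pt), x ∉ blk (z, w) := by
        filter_upwards [hx'.2 (z, w)] with x hx1 hx2
        exact hninf _ (hx1.1 hx2)
      have h2 : ∀ᶠ x in (𝒰 : Filter Pt), ∀ n ∈ {n | n < k}, x ≠ Pt.nat n := by
        refine (Filter.eventually_all_finite (Set.finite_lt_nat k)).2 fun n _ => ?_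
        filter_upwards [hx'.1 n] with x hx1 hx2
        cases hx1.1 hx2
      filter_upwards [hz k, hw k, h1, h2] with x a b c d
      exact ⟨a, b, c, d⟩
    · rintro a b hab x ⟨h1, h2, h3, h4⟩
      exact ⟨h1.mono hab, h2.mono hab, h3, fun n hn => h4 n (lt_of_lt_of_le hn hab)⟩
    · intro n
      refine ⟨n + 1, fun x' hx' => ⟨fun h => ?_, fun h => ?_⟩⟩
      · exact (hx'.2.2.2 n (Nat.lt_succ_self n) h).elim
      · cases h
    · intro y
      suffices hs : ∃ k, ∀ x' : Pt, eq0 k (lab0 x') z → eq1 k (lab1 z x') w → x' ∉ blk (z, w) →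
          (∀ n ∈ {n | n < k}, x' ≠ Pt.nat n) → x' ∉ blk y by
        obtain ⟨k, hk⟩ := hs
        refine ⟨k, fun x' hx' => ⟨fun h => ?_, fun h => (hninf _ h).elim⟩⟩
        exact (hk x' hx'.1 hx'.2.1 hx'.2.2.1 hx'.2.2.2 h).elim
      by_cases h0 : y.1 = z
      · by_cases h1 : y.2 = w
        · have h2 : y = (z, w) := Prod.ext h0 h1
          exact ⟨0, fun x' _ _ h3 _ => by rwa [h2]⟩
        · obtain ⟨j, hj⟩ := exists_not_eq1 h1
          obtain ⟨N, hN⟩ := D_conv y j
          refine ⟨max j N, ?_⟩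
          rintro x' h2 h3 - h4 (h5 | ⟨n, hn, h5⟩)
          · subst h5
            exact hj (h3.mono (le_max_left _ _))
          · subst h5
            have h6 : N ≤ n := by
              by_contra hlt
              exact h4 n (lt_of_lt_of_le (not_le.1 hlt) (le_max_right _ _)) rfl
            have h7 := (hN n hn h6).2
            rw [h0] at h7
            exact hj (h7.symm.trans (h3.mono (le_max_left _ _)))
      · obtain ⟨j, hj⟩ := exists_not_eq0 h0
        obtain ⟨N, hN⟩ := D_conv y j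
        refine ⟨max j N, ?_⟩
        rintro x' h2 h3 - h4 (h5 | ⟨n, hn, h5⟩)
        · subst h5
          exact hj (h2.mono (le_max_left _ _))
        · subst h5
          have h6 : N ≤ n := by
            by_contra hlt
            exact h4 n (lt_of_lt_of_le (not_le.1 hlt) (le_max_right _ _)) rfl
          exact hj ((hN n hn h6).1.symm.trans (h2.mono (le_max_left _ _)))
  · refine ⟨fun _ => {Pt.nat n}, fun k => hx ((isOpen_nat n).mem_nhds rfl), ?_⟩
    intro O hO
    exact ⟨0, fun _ _ => by rw [singleton_subset_iff]; exact mem_of_mem_nhds hO⟩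
  · refine ⟨fun k => {x | x ∈ blk y ∧ ∀ n ∈ {n | n < k}, x ≠ Pt.nat n}, fun k => ?_,
      converges ?_ ?_ ?_⟩
    · have h2 : ∀ᶠ x in (𝒰 : Filter Pt), ∀ n ∈ {n | n < k}, x ≠ Pt.nat n := by
        refine (Filter.eventually_all_finite (Set.finite_lt_nat k)).2 fun n _ => ?_
        filter_upwards [hx'.1 n] with x hx1 hx2
        cases hx1.1 hx2
      filter_upwards [hx'.2 y, h2] with x a b
      exact ⟨a.2 (Or.inl rfl), b⟩
    · rintro a b hab x ⟨h1, h4⟩
      exact ⟨h1, fun n hn => h4 n (lt_of_lt_of_le hn hab)⟩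
    · intro n
      refine ⟨n + 1, fun x' hx' => ⟨fun h => ?_, fun h => ?_⟩⟩
      · exact (hx'.2 n (Nat.lt_succ_self n) h).elim
      · cases h
    · intro y'
      by_cases hyy : y = y'
      · subst hyy
        exact ⟨0, fun x' hx' => ⟨fun _ => Or.inl rfl, fun _ => hx'.1⟩⟩
      · obtain ⟨N, hN⟩ := D_disj hyy
        refine ⟨N, fun x' hx' => ⟨fun h => ?_, fun h => ?_⟩⟩
        · exfalso
          rcases hx'.1 with h5 | ⟨m, hm, h5⟩
          · subst h5
            rcases h with h6 | ⟨m', -, h6⟩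
            · injection h6 with h7
              exact hyy h7
            · cases h6
          · subst h5
            rcases h with h6 | ⟨m', hm', h6⟩
            · cases h6
            · injection h6 with h7
              subst h7
              have h8 : N ≤ m := by
                by_contra hlt
                exact hx'.2 m (not_le.1 hlt) rfl
              exact hN m h8 hm hm'
        · exfalso
          rcases h with h6 | ⟨m', -, h6⟩
          · injection h6 with h7
            exact hyy h7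
          · cases h6

section image

universe u

variable {Z : Type u} [TopologicalSpace Z] [CompactSpace Z] [FirstCountableTopology Z]
  {f : Z → Pt} (hf : Continuous f) {e : ℕ → Z} (he : ∀ n, f (e n) = Pt.nat n)

set_option linter.unusedSectionVars false

/-- a point at which everything accumulates -/
def Full (e : ℕ → Z) (z : M0) (p : Z) : Prop :=
  ∀ G ∈ 𝓝 p, ∀ k, ∀ w, ∃ n ≥ k, e n ∈ G ∧ eq0 k (h n) z ∧ eq1 k (z n) w

include hf he in
theorem not_full (z : M0) (p : Z) : ¬ Full e z p := by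
  intro hfull
  obtain ⟨B, hB⟩ := (𝓝 p).exists_antitone_basis
  obtain ⟨w, hw⟩ := φ_surj fun k => {n | e n ∈ B k}
  have hanti : Antitone (φ w) := by
    rw [hw]; intro a b hab n hn; exact hB.antitone hab hn
  have hacc : Acc (z, w) := by
    refine ⟨hanti, fun k => ?_⟩
    obtain ⟨n, hn, h1, h2, h3⟩ := hfull (B k) (hB.mem k) k w
    refine ⟨n, hn, h2, h3, ?_⟩
    change n ∈ φ w k
    rw [hw]; exact h1
  have hV : ∀ m k, ∃ n ≥ k, n ∈ D (z, w) ∧ e n ∈ B m := by
    intro m k
    obtain ⟨n, hn, h1, h2⟩ := D_inf hacc m k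
    change n ∈ φ w m at h2
    rw [hw] at h2
    exact ⟨n, hn, h1, h2⟩
  have h1 : f p ∈ blk (z, w) := by
    by_contra hcon
    have h2 : f ⁻¹' (blk (z, w))ᶜ ∈ 𝓝 p :=
      ((isClopen_blk (z, w)).compl.isOpen.preimage hf).mem_nhds hcon
    obtain ⟨m, hm⟩ := hB.mem_iff.1 h2
    obtain ⟨n, -, hn1, hn2⟩ := hV m 0
    exact hm hn2 (by rw [he]; exact Or.inr ⟨n, hn1, rfl⟩)
  have h2 : f ⁻¹' (blk (z, w)) ∈ 𝓝 p := ((isClopen_blk (z, w)).isOpen.preimage hf).mem_nhds h1
  obtain ⟨m, hm⟩ := hB.mem_iff.1 h2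
  obtain ⟨N, hN⟩ := D_conv (z, w) 1
  obtain ⟨n, hn, hn1, -, hn3⟩ := hfull (B m) (hB.mem m) (N + 1) (fun i => !(w i))
  have h3 : f (e n) ∈ blk (z, w) := hm hn1
  rw [he] at h3
  rcases h3 with h3 | ⟨n', hn', h3⟩
  · cases h3
  · injection h3 with h4
    subst h4
    have h5 := (hN n hn' (by omega)).2 0 (by omega)
    have h6 := hn3 0 (by omega)
    change z n 0 = w 0 at h5
    rw [h5] at h6
    simp at h6

include hf he in
theorem exists_uniform (z : M0) : ∃ k, ∀ q : Z, ∃ G ∈ 𝓝 q, ∃ w, ∀ n ≥ k, e n ∈ G →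
    eq0 k (h n) z → ¬ eq1 k (z n) w := by
  have h1 : ∀ p : Z, ∃ G ∈ 𝓝 p, ∃ k, ∃ w, ∀ n ≥ k, e n ∈ G →
      eq0 k (h n) z → ¬ eq1 k (z n) w := by
    intro p
    have := not_full hf he z p
    unfold Full at this
    push Not at this
    exact this
  choose G hG k w hkw using h1
  obtain ⟨t, ht⟩ := CompactSpace.elim_nhds_subcover (fun p => interior (G p))
    (fun p => interior_mem_nhds.2 (hG p))
  refine ⟨t.sup k, fun q => ?_⟩
  have hq : q ∈ ⋃ x ∈ t, interior (G x) := by rw [ht]; trivial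
  obtain ⟨p, hp, hqp⟩ := mem_iUnion₂.1 hq
  have hk : k p ≤ t.sup k := Finset.le_sup hp
  refine ⟨G p, mem_interior_iff_mem_nhds.1 hqp, w p, fun n hn h2 h3 h4 => ?_⟩
  exact hkw p n (hk.trans hn) h2 (h3.mono hk) (h4.mono hk)

theorem exists_cluster (e : ℕ → Z) (k : ℕ) (z : M0) :
    ∃ q : Z, ∀ G ∈ 𝓝 q, ∀ m, ∃ n ≥ m, e n ∈ G ∧ eq0 k (h n) z := by
  have hne : (atTop ⊓ 𝓟 {n | eq0 k (h n) z} : Filter ℕ).NeBot := by
    rw [← frequently_mem_iff_neBot, frequently_atTop]
    intro m
    exact h_spec z k m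
  obtain ⟨q, hq⟩ := exists_clusterPt_of_compactSpace
    (map e (atTop ⊓ 𝓟 {n | eq0 k (h n) z}))
  refine ⟨q, fun G hG m => ?_⟩
  have h1 : ∃ᶠ n in (atTop ⊓ 𝓟 {n | eq0 k (h n) z} : Filter ℕ), e n ∈ G :=
    (mapClusterPt_iff_frequently.1 hq) G hG
  rw [frequently_inf_principal, frequently_atTop] at h1
  obtain ⟨n, hn, h2, h3⟩ := h1 m
  exact ⟨n, hn, h3, h2⟩

theorem dense_open {V : Set ℕ} (hV : ∀ m, ∃ n ≥ m, n ∈ V) (k : ℕ) (w : M1) :
    IsOpen {z : M0 | ∃ n ∈ V, eq1 k (z n) w} ∧ Dense {z : M0 | ∃ n ∈ V, eq1 k (z n) w} := by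
  constructor
  · have : {z : M0 | ∃ n ∈ V, eq1 k (z n) w} = ⋃ n ∈ V, (fun z : M0 => z n) ⁻¹' {w' | eq1 k w' w} := by
      ext z; simp
    rw [this]
    exact isOpen_biUnion fun n _ => (isOpen_eq1 k w).preimage (continuous_apply n)
  · intro z
    choose n hn hnV using hV
    have h1 : Tendsto (fun m => Function.update z (n m) w) atTop (𝓝 z) := by
      rw [tendsto_pi_nhds]
      intro i
      refine tendsto_const_nhds.congr' ?_
      filter_upwards [eventually_gt_atTop i] with m hm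
      have h2 : i ≠ n m := by
        have := hn m
        omega
      simp [Function.update_of_ne h2]
    refine mem_closure_of_tendsto h1 (Eventually.of_forall fun m => ?_)
    refine ⟨n m, hnV m, ?_⟩
    simp [eq1]

include hf he in
theorem image_false : False := by
  choose q hq using fun p : ℕ × ℕ => exists_cluster e p.1 (h p.2)
  choose B hB using fun p : ℕ × ℕ => (𝓝 (q p)).exists_antitone_basis
  let V : (ℕ × ℕ) → ℕ → Set ℕ := fun p j => {n | p.1 ≤ n ∧ e n ∈ B p j ∧ eq0 p.1 (h n) (h p.2)}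
  have hV : ∀ p j m, ∃ n ≥ m, n ∈ V p j := by
    intro p j m
    obtain ⟨n, hn, h1, h2⟩ := hq p (B p j) ((hB p).mem j) (max m p.1)
    exact ⟨n, (le_max_left _ _).trans hn, (le_max_right _ _).trans hn, h1, h2⟩
  have hdense : Dense (⋂ c : (ℕ × ℕ) × ℕ × ℕ,
      {z : M0 | ∃ n ∈ V c.1 c.2.1, eq1 c.1.1 (z n) (h c.2.2 0)}) :=
    dense_iInter_of_isOpen (fun c => (dense_open (hV c.1 c.2.1) _ _).1)
      (fun c => (dense_open (hV c.1 c.2.1) _ _).2)
  obtain ⟨z, hz⟩ := hdense.nonempty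
  rw [mem_iInter] at hz
  obtain ⟨k, hk⟩ := exists_uniform hf he z
  obtain ⟨i, -, hi⟩ := h_spec z k 0
  obtain ⟨G, hG, w, hw⟩ := hk (q (k, i))
  obtain ⟨j, hj⟩ := (hB (k, i)).mem_iff.1 hG
  obtain ⟨l, -, hl⟩ := h_spec (fun _ => w) (k + 1) 0
  have hl' : eq1 k (h l 0) w := (hl 0 (by omega)).mono (by omega)
  obtain ⟨n, ⟨hn1, hn2, hn3⟩, hn4⟩ := hz ((k, i), j, l)
  exact hw n hn1 (hj hn2) (hn3.trans hi) (hn4.trans hl')

end image

theorem card_le : Cardinal.mk Pt ≤ Cardinal.continuum := by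
  let F : Pt → Option (ℕ ⊕ (M0 × M1))
    | Pt.inf => none
    | Pt.nat n => some (Sum.inl n)
    | Pt.idx y => some (Sum.inr y)
  have hF : Function.Injective F := by
    rintro (_ | n | y) (_ | n' | y') hx
    · rfl
    · cases hx
    · cases hx
    · cases hx
    · injection hx with h1
      injection h1 with h2
      rw [h2]
    · injection hx with h1
      cases h1
    · cases hx
    · injection hx with h1
      cases h1
    · injection hx with h1
      injection h1 with h2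
      rw [h2]
  refine (Cardinal.mk_le_of_injective hF).trans ?_
  have h1 : Cardinal.mk M1 = Cardinal.continuum := by simp
  have h0 : Cardinal.mk M0 = Cardinal.continuum := by simp
  rw [Cardinal.mk_option, Cardinal.mk_sum, Cardinal.mk_prod, h1, h0]
  simp only [Cardinal.lift_id, Cardinal.mk_nat, Cardinal.continuum_mul_self,
    Cardinal.aleph0_add_continuum]
  exact (Cardinal.add_one_eq Cardinal.aleph0_le_continuum).le

theorem result.{u} : ∃ (X : Type) (_ : TopologicalSpace X), CompactSpace X ∧ T2Space X ∧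
    Bisequential X ∧ Cardinal.mk X ≤ Cardinal.continuum ∧
    ∀ (Z : Type u) [TopologicalSpace Z] [CompactSpace Z] [T2Space Z] [FirstCountableTopology Z]
      (f : Z → X), Continuous f → ¬ Function.Surjective f := by
  refine ⟨Pt, inferInstance, inferInstance, inferInstance, bisequential, card_le, ?_⟩
  intro Z _ _ _ _ f hf hs
  choose e he using fun n => hs (Pt.nat n)
  exact image_false hf he

end Pool.Agent.Results.MP_34c5b1_gt.NotImage
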